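import Pool.Agent.MP_ab01c5_an.JMain

/-! Ranges of positive contractive projections on tracial nonassociative L^p spaces. -/

namespace Pool.Agent.Results.MP_ab01c5_an.PositiveProjections

open Pool.Agent.MP_ab01c5_an

universe u v

/-- `P` is a linear projection on `V`, contractive for the norm `n`, mapping the cone `C` into
itself. -/
structure IsPosContrProj {V : Type u} [AddCommGroup V] [Module ℂ V] (n : V → ℝ) (C : Set V)
    (P : V →ₗ[ℂ] V) : Prop where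
  idem : ∀ y : V, P (P y) = P y
  contr : ∀ y : V, n (P y) ≤ n y
  pos : ∀ y ∈ C, P y ∈ C

/-- The range of `P`, with the norm `n` of `V`, is linearly isometric to `W` with the norm `m`. -/
structure RangeIsometric {V : Type u} [AddCommGroup V] [Module ℂ V] (n : V → ℝ) (P : V →ₗ[ℂ] V)
    {W : Type v} [AddCommGroup W] [Module ℂ W] (m : W → ℝ) : Prop where
  out : ∃ T : LinearMap.range P ≃ₗ[ℂ] W, ∀ y : LinearMap.range P, m (T y) = n (y : V)

/-- Check of the definitions at the endpoint: `L^1(M, τ) = M_*` isometrically. -/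
theorem lp_one {M : Type u} [JBStarAlgebra M] {X : Type v} [NormedAddCommGroup X]
    [NormedSpace ℂ X] [CompleteSpace X] (e : M ≃ₗᵢ[ℂ] StrongDual ℂ X) (τ : X)
    (hτ : IsFaithfulState e τ) (htr : IsTrace e τ) :
    Lp e τ 1 = ⊤ ∧ ∀ ξ : X, lpNorm e τ 1 ξ = ‖ξ‖ :=
  lp_one_aux e τ hτ htr

theorem result {M : Type u} [JBStarAlgebra M] {X : Type v} [NormedAddCommGroup X]
    [NormedSpace ℂ X] [CompleteSpace X] (e : M ≃ₗᵢ[ℂ] StrongDual ℂ X) (τ : X)
    (hτ : IsFaithfulState e τ) (htr : IsTrace e τ) (p : ℝ) (hp : 1 ≤ p)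
    (P : Lp e τ p →ₗ[ℂ] Lp e τ p)
    (hP : IsPosContrProj (fun y : Lp e τ p => lpNorm e τ p (y : X)) (posCone e τ p) P)
    (hP0 : P ≠ 0) :
    ∃ (N : Type u) (_ : JBStarAlgebra N) (Y : Type v) (_ : NormedAddCommGroup Y)
      (_ : NormedSpace ℂ Y) (_ : CompleteSpace Y) (e' : N ≃ₗᵢ[ℂ] StrongDual ℂ Y) (ψ : Y),
      IsFaithfulState e' ψ ∧ IsTrace e' ψ ∧
      RangeIsometric (fun y : Lp e τ p => lpNorm e τ p (y : X)) P
        (fun y : Lp e' ψ p => lpNorm e' ψ p (y : Y)) := by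
  obtain ⟨N, i₁, Y, i₂, i₃, i₄, e', ψ, h₁, h₂, h₃⟩ :=
    main e τ hτ htr p hp P hP.idem hP.contr hP.pos hP0
  exact ⟨N, i₁, Y, i₂, i₃, i₄, e', ψ, h₁, h₂, ⟨h₃⟩⟩

end Pool.Agent.Results.MP_ab01c5_an.PositiveProjections
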